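import Pool.Agent.Helper16.CC.Main

/-!
# Periodic circles of `Ω`-stable diffeomorphisms

`V n = ℝⁿ`, `DiffM n N r = Diff^r(N)` (`Pool/Agent/H718R2/G0.lean`); `OmegaStable n N r F`: all `G` in a
neighbourhood of `F` in `Diff^r(N)` are conjugate to `F` on the nonwandering sets
(`Pool/Agent/TH80/OMS/Defs.lean`); `Per F` is the set of the periodic points of `F`.
`IsAction 1 n N R`: `R` is a smooth flow on `N` (an action of `ℝ = V 1`); `toV t` is the real number `t` as
an element of `V 1`.

In `Pool/Agent/Helper16/CC/Main.lean`:
* `CircleOrbit R F y T`: the orbits of `R` through the points `F^i(y)`, `i ≥ 0`, are circles: periodic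
  orbits of `R`, with least period `T i > 0`, and `F` maps each of them to the next one, preserving the
  orientation: `F (R t (F^i y)) = R (g t) (F^(i+1) y)` with a continuous monotone `g : ℝ → ℝ`.
* `Basin R F δ x l`: in the time coordinate of the circle of `x = F^l x` the map `F^l` is given by a
  continuous monotone function `u` with `u 0 = 0`, and either `|u s| < |s|` for `0 < |s| < δ`, or
  `|s| < |u s|` for `0 < |s| < δ`.
* `MorseSmaleOn R F δ τ y m`: on the circle `C` of `y` (of length `τ`) there is a point `p` with
  `F^(jm) p = p` for some `j ≥ 1` with `jδ ≤ τ + δ`; different periodic points of `F` on `C` are at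
  distance (time) at least `δ`; every periodic point of `F` on `C` is attracting or repelling along `C`,
  with a basin of radius `δ` (`Basin`).
-/

set_option autoImplicit false

open scoped Manifold ContDiff Topology

namespace Pool.Agent.Results.MP_4a0782_an.PeriodicCircles

open Pool.Agent.H718R2.G Pool.Agent.R774.ClStmt Pool.Agent.TH80.OMS Pool.Agent.Helper16.OL
open Pool.Agent.Helper16.CC

/-- Let `F ∈ Diff^r(N)` be `Ω`-stable, `N` closed, `1 ≤ r ≤ ∞`, and let `R` be a smooth flow on `N` (for
instance a free smooth action of the circle, or an Anosov flow, with `F y = R (a y) y`). There is a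
`δ > 0` such that on all circles (closed orbits) `C` of `R` with `F^m(C) = C`, `m ≥ 1`, along whose orbit
`F` maps circles to circles, preserving the orientation, the map `F` is Morse–Smale with the constant `δ`,
whatever `m` and the length of `C`. -/
theorem result {n : ℕ} {N : Type} [TopologicalSpace N] [T2Space N] [CompactSpace N]
    [ChartedSpace (V n) N] [IsManifold (𝓡 n) ∞ N] (r : ℕ∞) (hr : 1 ≤ r) {F : DiffM n N r}
    (hF : OmegaStable n N r F) {R : V 1 → N → N} (hR : IsAction 1 n N R) :
    ∃ δ : ℝ, 0 < δ ∧
      ∀ (y : N) (T : ℕ → ℝ), CircleOrbit R F y T → ∀ (m : ℕ) (t : ℝ), 1 ≤ m →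
        F^[m] y = R (toV t) y → MorseSmaleOn R F δ (T 0) y m :=
  periodic_circles hr hF hR

end Pool.Agent.Results.MP_4a0782_an.PeriodicCircles
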